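import Mathlib
import Pool.Agent.H222F.Local

set_option autoImplicit false

/-!
# Nowhere-zero 5-flows and 3-edge-cuts with a private edge (MP_c8786f_co)

Let `G` be a 3-edge-connected multigraph in which every 3-edge-cut contains an edge which lies in
no other edge cut with at most four edges, or two edges which lie in no other 3-edge-cut.  Then `G`
is `Z_5`-connected: for every assignment of one forbidden value in `Z_5` to each edge there is a
`Z_5`-flow avoiding the forbidden values.  In particular `G` has a nowhere-zero 5-flow, so that the
characteristic polynomial of the bond matroid of `G` is nonzero at all integers `i ≥ 5`.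

For example (`essentiallyFive` below): if all edge cuts with at most four edges isolate a vertex
and every vertex of degree three has a neighbour of degree at least five, then `G` has a
nowhere-zero 5-flow.

The theorem is proved in a stronger form: one may choose cycles `C_1, ..., C_m`, each with at most
four edges outside the union of the earlier ones, and consider only the edge cuts which avoid all
these cycles; and exceptions are allowed as long as no eleven pairwise disjoint vertex sets have
exceptional boundaries (so every 3-edge-connected graph with at most ten vertices is covered).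

Proof.  By the starting files (`H170/Reg`, based on the covering theorem of `H239R2/Cover`) it is
enough that every partition of the vertex set into `c` classes, which are unions of components of
the union of the cycles, has at least `(5/3)(c - 1)` crossing edges, i.e. that
`∑ (3 s_i - 10) ≥ -10` for the numbers `s_i ≥ 3` of boundary edges of the classes.  A class with
`s ≥ 4` boundary edges gives `1/2` (if `s = 4`) or `1` (if `s ≥ 5`) along each of its boundary
edges to the class at the other end; it can afford this, and by the hypothesis every class with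
three boundary edges receives at least `1`, with at most ten exceptions.
-/

namespace Pool.Agent.Results.MP_c8786f_co.LocalThreeCuts

variable {V E : Type}

/-- The edges with exactly one end in `X`. -/
def boundary [DecidableEq V] [Fintype E] (src dst : E → V) (X : Finset V) : Finset E :=
  Finset.univ.filter (fun e => ¬ (src e ∈ X ↔ dst e ∈ X))

/-- Kirchhoff's law. -/
def IsFlow {R : Type} [AddCommMonoid R] [DecidableEq V] [Fintype E] (src dst : E → V)
    (f : E → R) : Prop :=
  ∀ v : V, ∑ e ∈ Finset.univ.filter (fun e => src e = v), f e
    = ∑ e ∈ Finset.univ.filter (fun e => dst e = v), f e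

/-- The boundary of `X` contains an edge which lies in no other edge cut with at most four edges
avoiding `F`, or two edges which lie in no other edge cut with three edges avoiding `F`. -/
def HasPrivateEdge [DecidableEq V] [Fintype E] [DecidableEq E] (src dst : E → V) (F : Finset E)
    (X : Finset V) : Prop :=
  (∃ e ∈ boundary src dst X, ∀ Y : Finset V, (boundary src dst Y).card ≤ 4 →
    Disjoint (boundary src dst Y) F → e ∈ boundary src dst Y →
      boundary src dst Y = boundary src dst X) ∨
  (∃ e ∈ boundary src dst X, ∃ e' ∈ boundary src dst X, e ≠ e' ∧ ∀ Y : Finset V,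
    (boundary src dst Y).card = 3 → Disjoint (boundary src dst Y) F →
      (e ∈ boundary src dst Y ∨ e' ∈ boundary src dst Y) →
        boundary src dst Y = boundary src dst X)

theorem isFlow_iff {R : Type} [CommRing R] [DecidableEq V] [Fintype E] (src dst : E → V)
    (f : E → R) : IsFlow src dst f ↔
      ∀ v, ∑ e, f e * ((if src e = v then 1 else 0) - (if dst e = v then 1 else 0)) = 0 := by
  unfold IsFlow
  refine forall_congr' fun v => ?_
  rw [Finset.sum_filter, Finset.sum_filter, ← sub_eq_zero, ← Finset.sum_sub_distrib]
  have : ∀ e, (if src e = v then f e else 0) - (if dst e = v then f e else 0)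
      = f e * ((if src e = v then 1 else 0) - (if dst e = v then 1 else 0)) := by
    intro e
    by_cases h1 : src e = v <;> by_cases h2 : dst e = v <;> simp [h1, h2]
  rw [Finset.sum_congr rfl (fun e _ => this e)]

/-- `Z_5`-connectivity and nowhere-zero 5-flows from a local condition on the 3-edge-cuts. -/
theorem result :
    ∀ (V E : Type) [Fintype V] [DecidableEq V] [Fintype E] [DecidableEq E] (src dst : E → V)
      (m : ℕ) (C : Fin m → Finset E),
      (∀ X : Finset V, X.Nonempty → X ≠ Finset.univ → 3 ≤ (boundary src dst X).card) →
      (∀ i, ∃ z : E → ℤ, IsFlow src dst z ∧ (∀ e, z e = 0 ∨ z e = 1 ∨ z e = -1) ∧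
        ∀ e, z e ≠ 0 ↔ e ∈ C i) →
      (∀ i, (C i \ (Finset.univ.filter (fun j => j < i)).biUnion C).card ≤ 4) →
      (∀ X : Fin 11 → Finset V, (∀ i j, i ≠ j → Disjoint (X i) (X j)) →
        (∀ i, (boundary src dst (X i)).card = 3 ∧
          Disjoint (boundary src dst (X i)) (Finset.univ.biUnion C)) →
        ∃ i, HasPrivateEdge src dst (Finset.univ.biUnion C) (X i)) →
      (∀ β : E → ZMod 5, ∃ f : E → ZMod 5, IsFlow src dst f ∧ ∀ e, f e ≠ β e) ∧
      ∃ f : E → ℤ, IsFlow src dst f ∧ ∀ e, 1 ≤ |f e| ∧ |f e| ≤ 4 := by
  intro V E _ _ _ _ src dst m C h3 hC hnew hX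
  have hgood : Pool.Agent.H170.Reg.Good 5 src dst Finset.univ := by
    refine Pool.Agent.H222F.good_local src dst m C ?_ ?_ h3 ?_
    · intro i
      obtain ⟨z, h1, h2, h4⟩ := hC i
      exact ⟨z, h2, h4, (isFlow_iff src dst z).mp h1⟩
    · intro i
      have := hnew i
      convert this
    · intro X hdis hcard
      exact hX X hdis hcard
  refine ⟨?_, ?_⟩
  · intro β
    obtain ⟨f, hf, hfb⟩ := hgood β 0
    refine ⟨f, (isFlow_iff src dst f).mpr fun v => ?_, fun e => hf e (Finset.mem_univ e)⟩
    have h1 := hfb v
    simp only [Pi.zero_apply, sub_zero] at h1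
    exact h1
  · obtain ⟨f, hf, hfb⟩ := Pool.Agent.H170.Reg.flow_of_good 5 (by norm_num) src dst hgood
    refine ⟨f, (isFlow_iff src dst f).mpr hfb, fun e => ?_⟩
    have := hf e
    norm_num at this
    exact this

theorem boundary_compl [Fintype V] [DecidableEq V] [Fintype E] (src dst : E → V) (X : Finset V) :
    boundary src dst Xᶜ = boundary src dst X := by
  ext e
  simp only [boundary, Finset.mem_filter, Finset.mem_univ, true_and, Finset.mem_compl]
  tauto

/-- Consequence: 3-edge-connected graphs in which all edge cuts with at most four edges isolate a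
vertex and every vertex of degree three has a neighbour of degree at least five. -/
theorem essentiallyFive :
    ∀ (V E : Type) [Fintype V] [DecidableEq V] [Fintype E] [DecidableEq E] (src dst : E → V),
      (∀ X : Finset V, X.Nonempty → X ≠ Finset.univ → 3 ≤ (boundary src dst X).card) →
      (∀ X : Finset V, (boundary src dst X).card ≤ 4 → X.card ≤ 1 ∨ Xᶜ.card ≤ 1) →
      (∀ v, (boundary src dst {v}).card = 3 → ∃ w, 5 ≤ (boundary src dst {w}).card ∧
        ∃ e, (src e = v ∧ dst e = w) ∨ (src e = w ∧ dst e = v)) →
      ∃ f : E → ℤ, IsFlow src dst f ∧ ∀ e, 1 ≤ |f e| ∧ |f e| ≤ 4 := by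
  intro V E _ _ _ _ src dst h3 hess hnb
  -- small cuts are stars
  have hstar : ∀ X : Finset V, (boundary src dst X).card ≤ 4 → (boundary src dst X).Nonempty →
      ∃ v, boundary src dst {v} = boundary src dst X := by
    intro X hX hne
    have hempty : boundary src dst (∅ : Finset V) = ∅ := by simp [boundary]
    rcases hess X hX with h | h
    · rcases Nat.lt_or_ge X.card 1 with h1 | h1
      · exfalso
        have h2 : X = ∅ := Finset.card_eq_zero.mp (by omega)
        rw [h2, hempty] at hne
        simp at hne
      · obtain ⟨v, hv⟩ := Finset.card_eq_one.mp (le_antisymm h h1)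
        exact ⟨v, by rw [hv]⟩
    · rcases Nat.lt_or_ge Xᶜ.card 1 with h1 | h1
      · exfalso
        have h2 : Xᶜ = ∅ := Finset.card_eq_zero.mp (by omega)
        rw [← boundary_compl, h2, hempty] at hne
        simp at hne
      · obtain ⟨v, hv⟩ := Finset.card_eq_one.mp (le_antisymm h h1)
        exact ⟨v, by rw [← hv, boundary_compl]⟩
  refine (result V E src dst 0 (fun _ => ∅) h3 (fun i => i.elim0) (fun i => i.elim0) ?_).2
  intro X hdis hcard
  refine ⟨0, Or.inl ?_⟩
  have h30 := (hcard 0).1
  obtain ⟨v, hv⟩ := hstar (X 0) (by omega) (Finset.card_pos.mp (by omega))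
  obtain ⟨w, hw, e, he⟩ := hnb v (by rw [hv]; exact h30)
  have hvw : v ≠ w := by
    rintro rfl
    rw [hv] at hw
    omega
  have hev : e ∈ boundary src dst {v} := by
    simp only [boundary, Finset.mem_filter, Finset.mem_univ, true_and, Finset.mem_singleton]
    rcases he with ⟨h1, h2⟩ | ⟨h1, h2⟩
    · rw [h1, h2]; intro h; exact hvw (h.mp rfl).symm
    · rw [h1, h2]; intro h; exact hvw (h.mpr rfl).symm
  refine ⟨e, hv ▸ hev, ?_⟩
  intro Y hY _ heY
  obtain ⟨y, hy⟩ := hstar Y hY ⟨e, heY⟩
  have hey : e ∈ boundary src dst {y} := by rw [hy]; exact heY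
  have hyvw : y = v ∨ y = w := by
    simp only [boundary, Finset.mem_filter, Finset.mem_univ, true_and, Finset.mem_singleton]
      at hey
    rcases he with ⟨h1, h2⟩ | ⟨h1, h2⟩
    · rw [h1, h2] at hey
      by_contra hcon
      push Not at hcon
      exact hey (iff_of_false (fun h => hcon.1 h.symm) (fun h => hcon.2 h.symm))
    · rw [h1, h2] at hey
      by_contra hcon
      push Not at hcon
      exact hey (iff_of_false (fun h => hcon.2 h.symm) (fun h => hcon.1 h.symm))
  rcases hyvw with h | h
  · rw [← hy, ← hv, h]
  · exfalso
    rw [h] at hy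
    rw [hy] at hw
    omega

end Pool.Agent.Results.MP_c8786f_co.LocalThreeCuts
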